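import Mathlib

/-!
Chains of cells going to the south-east, and the comparison procedure.
-/

namespace Pool.Agent.V11121.Pure

/-- `a 1, ..., a k` goes strictly to the right and strictly down. -/
def Ch (k : ℤ) (a : ℤ → ℤ × ℤ) : Prop :=
  ∀ i, 1 ≤ i → i < k → (a i).1 < (a (i + 1)).1 ∧ (a (i + 1)).2 < (a i).2

/-- No `k`-chain of `F` has its corner in `L`. -/
def Free (k : ℤ) (L F : ℤ × ℤ → Prop) : Prop :=
  ∀ a, Ch k a → (∀ i, 1 ≤ i → i ≤ k → F (a i)) → ¬ L ((a 1).1, (a k).2)

theorem Ch.mono {k : ℤ} {a : ℤ → ℤ × ℤ} (h : Ch k a) {i j : ℤ} (hi : 1 ≤ i) (hij : i ≤ j)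
    (hj : j ≤ k) : (a i).1 + (j - i) ≤ (a j).1 ∧ (a j).2 + (j - i) ≤ (a i).2 := by
  induction j, hij using Int.leInduction with
  | base => constructor <;> omega
  | succ j hij ih =>
    have h1 := ih (by omega)
    have h2 := h j (by omega) (by omega)
    constructor <;> omega

/-- Reversal together with transposition. -/
def trc (k : ℤ) (a : ℤ → ℤ × ℤ) : ℤ → ℤ × ℤ := fun j => ((a (k + 1 - j)).2, (a (k + 1 - j)).1)

theorem Ch.trc {k : ℤ} {a : ℤ → ℤ × ℤ} (h : Ch k a) : Ch k (trc k a) := by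
  intro i hi hk
  have h2 := h (k - i) (by omega) (by omega)
  have e1 : k + 1 - (i + 1) = k - i := by ring
  have e2 : k - i + 1 = k + 1 - i := by ring
  rw [e2] at h2
  simp only [Pure.trc, e1]
  exact ⟨h2.2, h2.1⟩

theorem trc_trc (k : ℤ) (a : ℤ → ℤ × ℤ) : trc k (trc k a) = a := by
  funext j
  simp only [trc]
  have : k + 1 - (k + 1 - j) = j := by ring
  rw [this]

/-- The comparison procedure. -/
theorem procedure (ax ay gx gy : ℤ → ℤ) (l r : ℤ) (hl : 1 ≤ l) (hr : 0 ≤ r)
    (hg : ∀ i, 1 ≤ i → i < r → gy (i + 1) < gy i) (h0 : 1 ≤ r → ay l < gy r) :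
    (∃ s, 1 ≤ s ∧ s ≤ r ∧ s ≤ l ∧ gx (r + 1 - s) < ax (l + 1 - s) ∧
      ay (l + 1 - s) < gy (r + 1 - s)) ∨
    (∃ s, 1 ≤ s ∧ s ≤ r ∧ s ≤ l ∧ (s < l → gy (r + 1 - s) < ay (l - s)) ∧
      ∀ s', 1 ≤ s' → s' ≤ s → ax (l + 1 - s') ≤ gx (r + 1 - s') ∧
        ay (l + 1 - s') < gy (r + 1 - s')) ∨
    (r < l ∧ ∀ s, 1 ≤ s → s ≤ r → ax (l + 1 - s) ≤ gx (r + 1 - s) ∧
      ay (l + 1 - s) < gy (r + 1 - s) ∧ ay (l - s) ≤ gy (r + 1 - s)) := by
  have key : ∀ t, 0 ≤ t → t ≤ r →
      (∃ s, 1 ≤ s ∧ s ≤ r ∧ s ≤ l ∧ gx (r + 1 - s) < ax (l + 1 - s) ∧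
        ay (l + 1 - s) < gy (r + 1 - s)) ∨
      (∃ s, 1 ≤ s ∧ s ≤ r ∧ s ≤ l ∧ (s < l → gy (r + 1 - s) < ay (l - s)) ∧
        ∀ s', 1 ≤ s' → s' ≤ s → ax (l + 1 - s') ≤ gx (r + 1 - s') ∧
          ay (l + 1 - s') < gy (r + 1 - s')) ∨
      (t < l ∧ ∀ s, 1 ≤ s → s ≤ t → ax (l + 1 - s) ≤ gx (r + 1 - s) ∧
        ay (l + 1 - s) < gy (r + 1 - s) ∧ ay (l - s) ≤ gy (r + 1 - s)) := by
    intro t ht
    induction t, ht using Int.leInduction with
    | base =>
      intro _
      right; right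
      exact ⟨by omega, fun s h1 h2 => absurd h1 (by omega)⟩
    | succ t ht ih =>
      intro htr
      rcases ih (by omega) with h | h | ⟨htl, h⟩
      · exact Or.inl h
      · exact Or.inr (Or.inl h)
      · have hy : ay (l + 1 - (t + 1)) < gy (r + 1 - (t + 1)) := by
          rcases eq_or_lt_of_le ht with h' | h'
          · subst h'
            have e1 : l + 1 - (0 + 1) = l := by ring
            have e2 : r + 1 - (0 + 1) = r := by ring
            rw [e1, e2]
            exact h0 (by omega)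
          · have h1 := (h t (by omega) le_rfl).2.2
            have h2 := hg (r - t) (by omega) (by omega)
            have e1 : l + 1 - (t + 1) = l - t := by ring
            have e2 : r + 1 - (t + 1) = r - t := by ring
            have e3 : r - t + 1 = r + 1 - t := by ring
            rw [e3] at h2
            rw [e1, e2]
            omega
        by_cases hx : gx (r + 1 - (t + 1)) < ax (l + 1 - (t + 1))
        · left
          exact ⟨t + 1, by omega, htr, by omega, hx, hy⟩
        · have hx' : ax (l + 1 - (t + 1)) ≤ gx (r + 1 - (t + 1)) := not_lt.mp hx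
          by_cases hb : t + 1 < l → gy (r + 1 - (t + 1)) < ay (l - (t + 1))
          · right; left
            refine ⟨t + 1, by omega, htr, by omega, hb, ?_⟩
            intro s' h1 h2
            rcases eq_or_lt_of_le h2 with h3 | h3
            · rw [h3]; exact ⟨hx', hy⟩
            · have := h s' h1 (by omega)
              exact ⟨this.1, this.2.1⟩
          · push Not at hb
            right; right
            refine ⟨hb.1, ?_⟩
            intro s h1 h2
            rcases eq_or_lt_of_le h2 with h3 | h3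
            · rw [h3]; exact ⟨hx', hy, hb.2⟩
            · exact h s h1 (by omega)
  exact key r hr le_rfl

end Pool.Agent.V11121.Pure
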