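import Pool.Agent.V11121.Pure.Basic

/-!
The two comparison lemmas behind the purity theorem.
-/

namespace Pool.Agent.V11121.Pure

/-- The common setting: `F ⊆ L ⊆ [1,m] × [1,n]`, `L` closed upwards, `F` free. -/
structure Ctx (k m n : ℤ) (F L : ℤ × ℤ → Prop) : Prop where
  hk : 2 ≤ k
  FL : ∀ z, F z → L z
  Lbox : ∀ z, L z → 1 ≤ z.1 ∧ z.1 ≤ m ∧ 1 ≤ z.2 ∧ z.2 ≤ n
  up : ∀ z w, L z → z.1 ≤ w.1 → z.2 ≤ w.2 → w.1 ≤ m → w.2 ≤ n → L w
  free : Free k L F

theorem Ctx.tr {k m n : ℤ} {F L : ℤ × ℤ → Prop} (h : Ctx k m n F L) :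
    Ctx k n m (fun z => F (z.2, z.1)) (fun z => L (z.2, z.1)) where
  hk := h.hk
  FL := fun z hz => h.FL _ hz
  Lbox := fun z hz => by
    have := h.Lbox _ hz
    simp only at this
    omega
  up := fun z w hz h1 h2 h3 h4 => h.up _ _ hz h2 h1 h4 h3
  free := by
    intro a ha hF hL
    refine h.free (trc k a) ha.trc ?_ ?_
    · intro i h1 h2
      exact hF (k + 1 - i) (by omega) (by omega)
    · simp only [trc]
      have e1 : k + 1 - 1 = k := by ring
      have e2 : k + 1 - k = 1 := by ring
      rw [e1, e2]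
      exact hL

/-- A pointwise minimal `(k-1)`-chain of `F` in the open quadrant of `(x0, y0)`. -/
structure Bot (k x0 y0 : ℤ) (F : ℤ × ℤ → Prop) (b : ℤ → ℤ × ℤ) : Prop where
  ch : Ch (k - 1) b
  mem : ∀ j, 1 ≤ j → j ≤ k - 1 → F (b j)
  quad : ∀ j, 1 ≤ j → j ≤ k - 1 → x0 < (b j).1 ∧ y0 < (b j).2
  min : ∀ e, Ch (k - 1) e → (∀ j, 1 ≤ j → j ≤ k - 1 → F (e j)) →
    (∀ j, 1 ≤ j → j ≤ k - 1 → x0 < (e j).1 ∧ y0 < (e j).2) →
    (∀ j, 1 ≤ j → j ≤ k - 1 → (e j).1 ≤ (b j).1 ∧ (e j).2 ≤ (b j).2) →
    ∀ j, 1 ≤ j → j ≤ k - 1 → e j = b j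

theorem Bot.tr {k x0 y0 : ℤ} {F : ℤ × ℤ → Prop} {b : ℤ → ℤ × ℤ} (h : Bot k x0 y0 F b) :
    Bot k y0 x0 (fun z => F (z.2, z.1)) (trc (k - 1) b) where
  ch := h.ch.trc
  mem := fun j h1 h2 => h.mem (k - 1 + 1 - j) (by omega) (by omega)
  quad := fun j h1 h2 => by
    have := h.quad (k - 1 + 1 - j) (by omega) (by omega)
    exact ⟨this.2, this.1⟩
  min := by
    intro e he hF hQ hle j h1 h2
    have := h.min (trc (k - 1) e) he.trc
      (fun j h1 h2 => hF (k - 1 + 1 - j) (by omega) (by omega))
      (fun j h1 h2 => by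
        have := hQ (k - 1 + 1 - j) (by omega) (by omega)
        exact ⟨this.2, this.1⟩)
      (fun j h1 h2 => by
        have := hle (k - 1 + 1 - j) (by omega) (by omega)
        simp only [trc] at this ⊢
        have e1 : k - 1 + 1 - (k - 1 + 1 - j) = j := by ring
        rw [e1] at this
        exact ⟨this.2, this.1⟩)
      (k - 1 + 1 - j) (by omega) (by omega)
    simp only [trc] at this ⊢
    have e1 : k - 1 + 1 - (k - 1 + 1 - j) = j := by ring
    rw [e1] at this
    rw [← this]

/-- First half of the exchange lemma. -/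
theorem exchange_left {k m n x0 y0 : ℤ} {F L : ℤ × ℤ → Prop} (hC : Ctx k m n F L)
    {b : ℤ → ℤ × ℤ} (hB : Bot k x0 y0 F b) {q i : ℤ} (hq : 2 ≤ q) (hqk : q ≤ k)
    {a : ℤ → ℤ × ℤ} (ha : Ch k a) (hi : 1 ≤ i) (hik : i ≤ k)
    (hx : (a i).1 = (b (q - 1)).1) (hy : y0 ≤ (a i).2)
    (hy1 : (a i).2 < (b (q - 1)).2) (hy2 : q < k → (a i).2 = (b q).2)
    (haF : ∀ j, 1 ≤ j → j ≤ k → j ≠ i → F (a j))
    (hκ : L ((a 1).1, (a k).2)) (hκx : x0 < (a 1).1) : False := by
  have hk := hC.hk
  have hbox : ∀ j, 1 ≤ j → j ≤ k → (a j).1 ≤ m ∧ (a j).2 ≤ n := by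
    intro j h1 h2
    have h3 := ha.mono (i := 1) (j := j) le_rfl h1 h2
    by_cases hj : j = i
    · subst hj
      have hb := hC.Lbox _ (hC.FL _ (hB.mem (q - 1) (by omega) (by omega)))
      exact ⟨by omega, by omega⟩
    · have := hC.Lbox _ (hC.FL _ (haF j h1 h2 hj))
      exact ⟨this.2.1, this.2.2.2⟩
  -- the glued chain
  have glue : ∀ s, 1 ≤ s → s ≤ i → s ≤ q - 1 →
      (s < i → (a (i - s)).1 < (b (q - s)).1 ∧ (b (q - s)).2 < (a (i - s)).2) →
      (s = i → (a 1).1 ≤ (b (q - i)).1) → False := by
    intro s hs1 hsi hsq hlt heq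
    let d : ℤ → ℤ × ℤ := fun j => if i - s < j ∧ j ≤ i then b (j + q - 1 - i) else a j
    have dch : Ch k d := by
      intro j h1 h2
      simp only [d]
      by_cases c1 : i - s < j ∧ j ≤ i
      · rw [if_pos c1]
        by_cases c2 : i - s < j + 1 ∧ j + 1 ≤ i
        · rw [if_pos c2]
          have := hB.ch (j + q - 1 - i) (by omega) (by omega)
          have e : j + q - 1 - i + 1 = j + 1 + q - 1 - i := by ring
          rw [e] at this
          exact this
        · rw [if_neg c2]
          have hji : j = i := by omega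
          subst hji
          have := ha j h1 h2
          have e : j + q - 1 - j = q - 1 := by ring
          rw [e]
          constructor <;> omega
      · rw [if_neg c1]
        by_cases c2 : i - s < j + 1 ∧ j + 1 ≤ i
        · rw [if_pos c2]
          have hj : j = i - s := by omega
          have e : j + 1 + q - 1 - i = q - s := by omega
          rw [e, hj]
          exact hlt (by omega)
        · rw [if_neg c2]
          exact ha j h1 h2
    have dF : ∀ j, 1 ≤ j → j ≤ k → F (d j) := by
      intro j h1 h2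
      simp only [d]
      by_cases c1 : i - s < j ∧ j ≤ i
      · rw [if_pos c1]
        exact hB.mem _ (by omega) (by omega)
      · rw [if_neg c1]
        exact haF j h1 h2 (by omega)
    refine hC.free d dch dF ?_
    have hd1 : (a 1).1 ≤ (d 1).1 := by
      simp only [d]
      by_cases c1 : i - s < 1 ∧ 1 ≤ i
      · rw [if_pos c1]
        have hsi' : s = i := by omega
        have e : 1 + q - 1 - i = q - i := by ring
        rw [e]
        exact heq hsi'
      · rw [if_neg c1]
    have hd2 : (a k).2 ≤ (d k).2 := by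
      simp only [d]
      by_cases c1 : i - s < k ∧ k ≤ i
      · rw [if_pos c1]
        have hik' : i = k := by omega
        subst hik'
        have e : i + q - 1 - i = q - 1 := by ring
        rw [e]
        omega
      · rw [if_neg c1]
    have hb1 := hC.Lbox _ (hC.FL _ (dF 1 (by omega) (by omega)))
    have hb2 := hC.Lbox _ (hC.FL _ (dF k (by omega) (by omega)))
    exact hC.up _ _ hκ hd1 hd2 hb1.2.1 hb2.2.2.2
  rcases procedure (fun j => -(b j).2) (fun j => -(b j).1) (fun j => -(a j).2)
    (fun j => -(a j).1) (q - 1) (i - 1) (by omega) (by omega)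
    (by
      intro j h1 h2
      have := ha j h1 (by omega)
      omega)
    (by
      intro h1
      have := ha (i - 1) (by omega) (by omega)
      have e : i - 1 + 1 = i := by ring
      rw [e] at this
      omega) with ⟨s, hs1, hs2, hs3, h1, h2⟩ | ⟨s, hs1, hs2, hs3, h1, h2⟩ | ⟨h1, h2⟩
  · have e1 : i - 1 + 1 - s = i - s := by ring
    have e2 : q - 1 + 1 - s = q - s := by ring
    simp only [e1, e2] at h1 h2
    exact glue s hs1 (by omega) hs3 (fun _ => ⟨by omega, by omega⟩) (fun h => by omega)
  · -- the smaller chain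
    let e : ℤ → ℤ × ℤ := fun j => if q - s ≤ j ∧ j ≤ q - 1 then a (j + i - q) else b j
    have hcmp : ∀ j, q - s ≤ j → j ≤ q - 1 →
        (a (j + i - q)).1 < (b j).1 ∧ (a (j + i - q)).2 ≤ (b j).2 := by
      intro j g1 g2
      have := h2 (q - j) (by omega) (by omega)
      have e1 : i - 1 + 1 - (q - j) = j + i - q := by ring
      have e2 : q - 1 + 1 - (q - j) = j := by ring
      simp only [e1, e2] at this
      constructor <;> omega
    have ech : Ch (k - 1) e := by
      intro j g1 g2
      simp only [e]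
      by_cases c1 : q - s ≤ j ∧ j ≤ q - 1
      · rw [if_pos c1]
        by_cases c2 : q - s ≤ j + 1 ∧ j + 1 ≤ q - 1
        · rw [if_pos c2]
          have := ha (j + i - q) (by omega) (by omega)
          have e' : j + i - q + 1 = j + 1 + i - q := by ring
          rw [e'] at this
          exact this
        · rw [if_neg c2]
          have hj : j = q - 1 := by omega
          have h3 := hcmp j c1.1 c1.2
          have h4 := hB.ch j g1 g2
          have h5 := ha (i - 1) (by omega) (by omega)
          have e' : i - 1 + 1 = i := by ring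
          rw [e'] at h5
          have e2 : j + i - q = i - 1 := by omega
          have e3 : j + 1 = q := by omega
          rw [e3] at h4 ⊢
          rw [e2] at h3 ⊢
          have h6 := hy2 (by omega)
          constructor <;> omega
      · rw [if_neg c1]
        by_cases c2 : q - s ≤ j + 1 ∧ j + 1 ≤ q - 1
        · rw [if_pos c2]
          have hj : j = q - s - 1 := by omega
          have h3 := h1 (by omega)
          have h4 := hcmp (j + 1) c2.1 c2.2
          have h5 := hB.ch j g1 g2
          have e1 : i - 1 + 1 - s = j + 1 + i - q := by omega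
          have e2 : q - 1 - s = j := by omega
          simp only [e1, e2] at h3
          constructor <;> omega
        · rw [if_neg c2]
          exact hB.ch j g1 g2
    have hfin := hB.min e ech
      (by
        intro j g1 g2
        simp only [e]
        by_cases c1 : q - s ≤ j ∧ j ≤ q - 1
        · rw [if_pos c1]
          exact haF _ (by omega) (by omega) (by omega)
        · rw [if_neg c1]
          exact hB.mem j g1 g2)
      (by
        intro j g1 g2
        simp only [e]
        by_cases c1 : q - s ≤ j ∧ j ≤ q - 1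
        · rw [if_pos c1]
          have h3 := ha.mono (i := 1) (j := j + i - q) le_rfl (by omega) (by omega)
          have h4 := ha.mono (i := j + i - q) (j := i) (by omega) (by omega) (by omega)
          constructor <;> omega
        · rw [if_neg c1]
          exact hB.quad j g1 g2)
      (by
        intro j g1 g2
        simp only [e]
        by_cases c1 : q - s ≤ j ∧ j ≤ q - 1
        · rw [if_pos c1]
          have h3 := hcmp j c1.1 c1.2
          constructor <;> omega
        · rw [if_neg c1]
          exact ⟨le_rfl, le_rfl⟩)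
      (q - 1) (by omega) (by omega)
    simp only [e] at hfin
    rw [if_pos ⟨by omega, le_rfl⟩] at hfin
    have h3 := hcmp (q - 1) (by omega) le_rfl
    rw [hfin] at h3
    omega
  · refine glue i hi le_rfl (by omega) (fun h => by omega) (fun _ => ?_)
    rcases eq_or_lt_of_le hi with h | h
    · rw [← h] at hx ⊢
      omega
    · have h3 := (h2 (i - 1) (by omega) le_rfl).2.2
      have e1 : i - 1 + 1 - (i - 1) = 1 := by ring
      have e2 : q - 1 - (i - 1) = q - i := by ring
      simp only [e1, e2] at h3
      omega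

end Pool.Agent.V11121.Pure
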