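import Pool.Agent.V11121.Pure.Uniq

/-!
The purity theorem: all maximal fillings of an upward closed region without a `k`-chain whose
corner lies in the region have the same size.
-/

namespace Pool.Agent.V11121.Pure

/-- The chain through `v` is the staircase. -/
theorem stair_eq {k m n x0 y0 : ℤ} {F L : ℤ × ℤ → Prop} (hC : Ctx k m n F L)
    (hL0 : L (x0, y0)) {b : ℤ → ℤ × ℤ} (hB : Bot k x0 y0 F b)
    {v : ℤ × ℤ} {p : ℤ} {a : ℤ → ℤ × ℤ} (hT : Top k x0 y0 F L v p a)
    (hbl : ∀ t, L t → ¬ F t → ∃ g i, Ch k g ∧ 1 ≤ i ∧ i ≤ k ∧ g i = t ∧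
      (∀ j, 1 ≤ j → j ≤ k → j ≠ i → F (g j)) ∧ L ((g 1).1, (g k).2)) :
    ∀ q, 1 ≤ q → q ≤ k → a q = stair k x0 y0 b q := by
  have hk := hC.hk
  have haV : ∀ j, 1 ≤ j → j ≤ k → F (a j) ∨ a j = v := by
    intro j h1 h2
    by_cases h : j = p
    · right; rw [h]; exact hT.hp
    · left; exact hT.mem j h1 h2 h
  have habox : ∀ j, 1 ≤ j → j ≤ k → (a j).1 ≤ m ∧ (a j).2 ≤ n := by
    intro j g1 g2
    rcases haV j g1 g2 with h | h
    · have := hC.Lbox _ (hC.FL _ h)
      exact ⟨this.2.1, this.2.2.2⟩
    · have := hC.Lbox _ hT.Lv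
      rw [h]
      exact ⟨this.2.1, this.2.2.2⟩
  have hbbox : ∀ j, 1 ≤ j → j ≤ k - 1 → (b j).1 ≤ m ∧ (b j).2 ≤ n := by
    intro j g1 g2
    have := hC.Lbox _ (hC.FL _ (hB.mem j g1 g2))
    exact ⟨this.2.1, this.2.2.2⟩
  -- first mixing
  have mix1 : ∀ l, 1 ≤ l → l ≤ k - 1 → ¬ ((a l).1 < (b l).1 ∧ (b l).2 < (a l).2) := by
    rintro l hl hlk ⟨c1, c2⟩
    let d : ℤ → ℤ × ℤ := fun j => if j ≤ l then a j else b (j - 1)
    have dch : Ch k d := by
      intro j g1 g2
      simp only [d]
      by_cases h1 : j ≤ l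
      · rw [if_pos h1]
        by_cases h2 : j + 1 ≤ l
        · rw [if_pos h2]; exact hT.ch j g1 g2
        · rw [if_neg h2]
          have : j = l := by omega
          subst this
          have e : j + 1 - 1 = j := by ring
          rw [e]; exact ⟨c1, c2⟩
      · rw [if_neg h1, if_neg (by omega)]
        have := hB.ch (j - 1) (by omega) (by omega)
        have e : j - 1 + 1 = j + 1 - 1 := by ring
        rw [e] at this
        exact this
    have hd1 : d 1 = a 1 := by simp only [d]; rw [if_pos hl]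
    have hdk : d k = b (k - 1) := by simp only [d]; rw [if_neg (by omega)]
    have hq := hB.quad (k - 1) (by omega) le_rfl
    have := hT.only d dch
      (by
        intro j g1 g2
        simp only [d]
        by_cases h1 : j ≤ l
        · rw [if_pos h1]; exact haV j g1 g2
        · rw [if_neg h1]; exact Or.inl (hB.mem _ (by omega) (by omega)))
      (by
        rw [hd1, hdk, hT.hx]
        refine hC.up _ _ hL0 le_rfl hq.2.le ?_ (hbbox _ (by omega) le_rfl).2
        have := (habox 1 le_rfl (by omega)).1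
        rw [hT.hx] at this
        exact this)
    rw [hdk] at this
    omega
  have mix2 : ∀ l, 1 ≤ l → l ≤ k - 1 →
      ¬ ((b l).1 < (a (l + 1)).1 ∧ (a (l + 1)).2 < (b l).2) := by
    rintro l hl hlk ⟨c1, c2⟩
    let d : ℤ → ℤ × ℤ := fun j => if j ≤ l then b j else a j
    have dch : Ch k d := by
      intro j g1 g2
      simp only [d]
      by_cases h1 : j ≤ l
      · rw [if_pos h1]
        by_cases h2 : j + 1 ≤ l
        · rw [if_pos h2]; exact hB.ch j g1 (by omega)
        · rw [if_neg h2]
          have : j = l := by omega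
          subst this
          exact ⟨c1, c2⟩
      · rw [if_neg h1, if_neg (by omega)]
        exact hT.ch j g1 g2
    have hd1 : d 1 = b 1 := by simp only [d]; rw [if_pos hl]
    have hdk : d k = a k := by simp only [d]; rw [if_neg (by omega)]
    have hq := hB.quad 1 le_rfl (by omega)
    have := hT.only d dch
      (by
        intro j g1 g2
        simp only [d]
        by_cases h1 : j ≤ l
        · rw [if_pos h1]; exact Or.inl (hB.mem _ (by omega) (by omega))
        · rw [if_neg h1]; exact haV j g1 g2)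
      (by
        rw [hd1, hdk, hT.hy]
        refine hC.up _ _ hL0 hq.1.le le_rfl (hbbox _ le_rfl (by omega)).1 ?_
        have := (habox k (by omega) le_rfl).2
        rw [hT.hy] at this
        exact this)
    rw [hd1] at this
    omega
  have f2 : ∀ l, 1 ≤ l → l ≤ k - 1 → (a l).2 ≤ (b l).2 ∧ (a (l + 1)).1 ≤ (b l).1 := by
    intro l hl
    induction l, hl using Int.leInduction with
    | base =>
      intro h
      have h1 := mix1 1 le_rfl h
      have h2 := mix2 1 le_rfl h
      have h3 := hB.quad 1 le_rfl h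
      have h4 := hT.ch 1 le_rfl (by omega)
      have h5 := hT.hx
      omega
    | succ l hl ih =>
      intro h
      have h0 := ih (by omega)
      have h1 := mix1 (l + 1) (by omega) h
      have h2 := mix2 (l + 1) (by omega) h
      have h3 := hB.ch l hl (by omega)
      have h4 := hT.ch (l + 1) (by omega) (by omega)
      omega
  -- the tops of the corners
  have hTch : Ch (k - 1) (fun l => ((a (l + 1)).1, (a l).2)) := by
    intro j g1 g2
    have h1 := hT.ch j g1 (by omega)
    have h2 := hT.ch (j + 1) (by omega) (by omega)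
    exact ⟨h2.1, h1.2⟩
  have hTq : ∀ l, 1 ≤ l → l ≤ k - 1 → x0 < (a (l + 1)).1 ∧ y0 < (a l).2 := by
    intro l g1 g2
    have h1 := hT.ch.mono (i := 1) (j := l + 1) le_rfl (by omega) (by omega)
    have h2 := hT.ch.mono (i := l) (j := k) g1 (by omega) le_rfl
    rw [hT.hx] at h1
    rw [hT.hy] at h2
    constructor <;> omega
  have hTF : ∀ l, 1 ≤ l → l ≤ k - 1 → F ((a (l + 1)).1, (a l).2) := by
    intro l g1 g2
    by_contra hnF
    have hLt : L ((a (l + 1)).1, (a l).2) := by
      have := hTq l g1 g2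
      exact hC.up _ _ hL0 this.1.le this.2.le (habox _ (by omega) (by omega)).1
        (habox _ (by omega) (by omega)).2
    obtain ⟨g, i, hg, hi, hik, hgi, hgF, hκ⟩ := hbl _ hLt hnF
    have e1 : (g i).1 = (a (l + 1)).1 := by rw [hgi]
    have e2 : (g i).2 = (a l).2 := by rw [hgi]
    rcases uniq_left hC hL0 hT g1 g2 hg hi hik e1 e2 hgF hκ with h1 | h1 <;>
      rcases uniq_right hC hL0 hT g1 g2 hg hi hik e1 e2 hgF hκ with h2 | h2 <;> omega
  have hTb := hB.min _ hTch hTF hTq (fun l g1 g2 => ⟨(f2 l g1 g2).2, (f2 l g1 g2).1⟩)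
  intro q hq hqk
  simp only [stair]
  refine Prod.ext ?_ ?_
  · show (a q).1 = if q = 1 then x0 else (b (q - 1)).1
    by_cases h : q = 1
    · rw [if_pos h, h]; exact hT.hx
    · rw [if_neg h, ← hTb (q - 1) (by omega) (by omega)]
      have e : q - 1 + 1 = q := by ring
      simp only [e]
  · show (a q).2 = if q = k then y0 else (b q).2
    by_cases h : q = k
    · rw [if_pos h, h]; exact hT.hy
    · rw [if_neg h, ← hTb q (by omega) (by omega)]

/-- Chains of `F ∪ {v}` that are not chains of `F` pass through `v` once. -/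
theorem split_chain {k : ℤ} {F : ℤ × ℤ → Prop} {v : ℤ × ℤ} {g : ℤ → ℤ × ℤ} (hg : Ch k g)
    (h : ∀ j, 1 ≤ j → j ≤ k → F (g j) ∨ g j = v)
    (hn : ¬ ∀ j, 1 ≤ j → j ≤ k → F (g j)) :
    ∃ i, 1 ≤ i ∧ i ≤ k ∧ g i = v ∧ ∀ j, 1 ≤ j → j ≤ k → j ≠ i → F (g j) := by
  push Not at hn
  obtain ⟨i, hi, hik, hnF⟩ := hn
  have hgi := (h i hi hik).resolve_left hnF
  refine ⟨i, hi, hik, hgi, ?_⟩
  intro j h1 h2 h3
  rcases h j h1 h2 with h' | h'
  · exact h'
  · exfalso
    rw [← hgi] at h'
    rcases lt_or_gt_of_ne h3 with h4 | h4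
    · have := (hg.mono h1 h4.le hik).1
      rw [h'] at this
      omega
    · have := (hg.mono hi h4.le h2).1
      rw [h'] at this
      omega

theorem exists_min_of {α : Type*} (f : α → ℤ) (P : α → Prop) (B : ℤ)
    (hB : ∀ a, P a → B ≤ f a) (hne : ∃ a, P a) : ∃ a, P a ∧ ∀ e, P e → f a ≤ f e := by
  classical
  obtain ⟨a0, h0⟩ := hne
  obtain ⟨z, ⟨a, ha, haz⟩, hz⟩ := Int.exists_least_of_bdd (P := fun z => ∃ a, P a ∧ f a = z)
    ⟨B, by rintro z ⟨a, ha, rfl⟩; exact hB a ha⟩ ⟨f a0, a0, h0, rfl⟩
  exact ⟨a, ha, fun e he => by rw [haz]; exact hz _ ⟨e, he, rfl⟩⟩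

/-- The total of the coordinates of a chain. -/
noncomputable def tot (k : ℤ) (a : ℤ → ℤ × ℤ) : ℤ := ∑ j ∈ Finset.Icc 1 k, ((a j).1 + (a j).2)

theorem eq_of_tot {k : ℤ} {a e : ℤ → ℤ × ℤ}
    (hle : ∀ j, 1 ≤ j → j ≤ k → (a j).1 ≤ (e j).1 ∧ (a j).2 ≤ (e j).2)
    (ht : tot k e ≤ tot k a) : ∀ j, 1 ≤ j → j ≤ k → e j = a j := by
  intro j h1 h2
  have hle' : ∀ i ∈ Finset.Icc 1 k, (a i).1 + (a i).2 ≤ (e i).1 + (e i).2 := by
    intro i hi
    rw [Finset.mem_Icc] at hi
    have := hle i hi.1 hi.2
    omega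
  have hs := (Finset.sum_eq_sum_iff_of_le hle').mp
    (le_antisymm (Finset.sum_le_sum hle') ht)
  have h3 := hs j (Finset.mem_Icc.mpr ⟨h1, h2⟩)
  have h4 := hle j h1 h2
  exact Prod.ext (by omega) (by omega)

/-- `F` is a maximal subset of `L` without a `k`-chain with corner in `L`. -/
structure MaxF (k : ℤ) (L F : Finset (ℤ × ℤ)) : Prop where
  sub : F ⊆ L
  free : Free k (· ∈ L) (· ∈ F)
  max : ∀ v ∈ L, v ∉ F → ¬ Free k (· ∈ L) (· ∈ insert v F)

theorem MaxF.blocker {k : ℤ} {L F : Finset (ℤ × ℤ)} (h : MaxF k L F) {v : ℤ × ℤ}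
    (hv : v ∈ L) (hvF : v ∉ F) : ∃ g i, Ch k g ∧ 1 ≤ i ∧ i ≤ k ∧ g i = v ∧
      (∀ j, 1 ≤ j → j ≤ k → j ≠ i → g j ∈ F) ∧ ((g 1).1, (g k).2) ∈ L := by
  have := h.max v hv hvF
  unfold Free at this
  push Not at this
  obtain ⟨g, hg, hgF, hL⟩ := this
  obtain ⟨i, h1, h2, h3, h4⟩ := split_chain (F := (· ∈ F)) (v := v) hg
    (fun j h1 h2 => by
      rcases Finset.mem_insert.mp (hgF j h1 h2) with h' | h'
      · exact Or.inr h'
      · exact Or.inl h')
    (fun hall => h.free g hg hall hL)
  exact ⟨g, i, hg, h1, h2, h3, h4, hL⟩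

theorem purity (k m n : ℤ) (hk : 2 ≤ k) (L : Finset (ℤ × ℤ)) :
    (∀ z ∈ L, 1 ≤ z.1 ∧ z.1 ≤ m ∧ 1 ≤ z.2 ∧ z.2 ≤ n) →
    (∀ z w : ℤ × ℤ, z ∈ L → z.1 ≤ w.1 → z.2 ≤ w.2 → w.1 ≤ m → w.2 ≤ n → w ∈ L) →
    ∀ F, MaxF k L F →
      F.card = (L.filter (fun z => m < z.1 + (k - 1) ∨ n < z.2 + (k - 1))).card := by
  classical
  induction L using Finset.strongInduction with
  | H L ih =>
  intro hbox hup F hF
  by_cases hall : ∀ z ∈ L, m < z.1 + (k - 1) ∨ n < z.2 + (k - 1)
  · rw [Finset.filter_true_of_mem hall]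
    congr 1
    refine Finset.Subset.antisymm hF.sub ?_
    intro v hv
    by_contra hvF
    obtain ⟨g, i, hg, hi, hik, hgi, hgF, hκ⟩ := hF.blocker hv hvF
    have hgL : ∀ j, 1 ≤ j → j ≤ k → g j ∈ L := by
      intro j h1 h2
      by_cases h : j = i
      · rw [h, hgi]; exact hv
      · exact hF.sub (hgF j h1 h2 h)
    have h1 := hall _ hκ
    have h2 := hg.mono (i := 1) (j := k) le_rfl (by omega) le_rfl
    have h3 := hbox _ (hgL 1 le_rfl (by omega))
    have h4 := hbox _ (hgL k (by omega) le_rfl)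
    simp only at h1
    omega
  · push Not at hall
    obtain ⟨z1, hz1, hz1a, hz1b⟩ := hall
    obtain ⟨⟨x0, y0⟩, hz0, hz0min⟩ := Finset.exists_min_image
      (L.filter (fun z => z.1 + (k - 1) ≤ m ∧ z.2 + (k - 1) ≤ n)) (fun z => z.1 + z.2)
      ⟨z1, Finset.mem_filter.mpr ⟨hz1, hz1a, hz1b⟩⟩
    rw [Finset.mem_filter] at hz0
    obtain ⟨hz0L, hz0a, hz0b⟩ := hz0
    simp only at hz0a hz0b
    have hmin : ∀ z ∈ L, z.1 ≤ x0 → z.2 ≤ y0 → z.1 = x0 ∧ z.2 = y0 := by
      intro z hz h1 h2
      have := hz0min z (Finset.mem_filter.mpr ⟨hz, by omega, by omega⟩)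
      simp only at this
      omega
    have hL0box := hbox _ hz0L
    simp only at hL0box
    have hC : Ctx k m n (· ∈ F) (· ∈ L) :=
      { hk := hk
        FL := fun z hz => hF.sub hz
        Lbox := fun z hz => hbox z hz
        up := fun z w hz h1 h2 h3 h4 => hup z w hz h1 h2 h3 h4
        free := hF.free }
    have hbl : ∀ t, t ∈ L → ¬ t ∈ F → ∃ g i, Ch k g ∧ 1 ≤ i ∧ i ≤ k ∧ g i = t ∧
      (∀ j, 1 ≤ j → j ≤ k → j ≠ i → g j ∈ F) ∧ ((g 1).1, (g k).2) ∈ L :=
      fun t h1 h2 => hF.blocker h1 h2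
    -- the minimal cell belongs to `F`
    have hz0F : (x0, y0) ∈ F := by
      by_contra hcon
      obtain ⟨g, i, hg, hi, hik, hgi, hgF, hκ⟩ := hF.blocker hz0L hcon
      have h1 := hg.mono (i := 1) (j := i) le_rfl hi hik
      have h2 := hg.mono (i := i) (j := k) hi hik le_rfl
      rw [hgi] at h1 h2
      simp only at h1 h2
      have h3 := hmin _ hκ (by simp only; omega) (by simp only; omega)
      simp only at h3
      omega
    -- the corner cells belong to `F`
    have hcor : ∀ j, 1 ≤ j → j ≤ k - 1 → (m - (k - 1 - j), n - (j - 1)) ∈ F := by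
      intro j h1 h2
      by_contra hcon
      have hL : (m - (k - 1 - j), n - (j - 1)) ∈ L :=
        hup _ _ hz0L (by simp only; omega) (by simp only; omega) (by simp only; omega)
          (by simp only; omega)
      obtain ⟨g, i, hg, hi, hik, hgi, hgF, hκ⟩ := hF.blocker hL hcon
      have hgL : ∀ j, 1 ≤ j → j ≤ k → g j ∈ L := by
        intro j h1 h2
        by_cases h : j = i
        · rw [h, hgi]; exact hL
        · exact hF.sub (hgF j h1 h2 h)
      have h3 := hg.mono (i := 1) (j := i) le_rfl hi hik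
      have h4 := hg.mono (i := i) (j := k) hi hik le_rfl
      have h5 := hbox _ (hgL 1 le_rfl (by omega))
      have h6 := hbox _ (hgL k (by omega) le_rfl)
      rw [hgi] at h3 h4
      simp only at h3 h4
      omega
    -- the lowest chain
    obtain ⟨b, hB⟩ : ∃ b, Bot k x0 y0 (· ∈ F) b := by
      obtain ⟨b, ⟨h1, h2, h3⟩, h4⟩ := exists_min_of (tot (k - 1))
        (fun b => Ch (k - 1) b ∧ (∀ j, 1 ≤ j → j ≤ k - 1 → b j ∈ F) ∧
          (∀ j, 1 ≤ j → j ≤ k - 1 → x0 < (b j).1 ∧ y0 < (b j).2)) 0
        (by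
          rintro b ⟨h1, h2, h3⟩
          refine Finset.sum_nonneg ?_
          intro j hj
          rw [Finset.mem_Icc] at hj
          have := hbox _ (hF.sub (h2 j hj.1 hj.2))
          omega)
        ⟨fun j => (m - (k - 1 - j), n - (j - 1)), by
          intro j h1 h2
          simp only
          constructor <;> omega, hcor, by
          intro j h1 h2
          simp only
          constructor <;> omega⟩
      refine ⟨b, h1, h2, h3, ?_⟩
      intro e he hF' hQ hle
      have := h4 e ⟨he, hF', hQ⟩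
      intro j g1 g2
      exact (eq_of_tot hle this j g1 g2).symm
    -- a missing staircase cell
    obtain ⟨q, hq, hqk, hcF⟩ : ∃ q, 1 ≤ q ∧ q ≤ k ∧ stair k x0 y0 b q ∉ F := by
      by_contra hcon
      push Not at hcon
      refine hF.free _ hB.stair_ch hcon ?_
      have e1 : (stair k x0 y0 b 1).1 = x0 := by simp [stair]
      have e2 : (stair k x0 y0 b k).2 = y0 := by simp [stair]
      rw [e1, e2]
      exact hz0L
    have hcL : stair k x0 y0 b q ∈ L := by
      have hbb : ∀ j, 1 ≤ j → j ≤ k - 1 →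
          x0 < (b j).1 ∧ y0 < (b j).2 ∧ (b j).1 ≤ m ∧ (b j).2 ≤ n := by
        intro j g1 g2
        have := hbox _ (hF.sub (hB.mem j g1 g2))
        have h2 := hB.quad j g1 g2
        exact ⟨h2.1, h2.2, this.2.1, this.2.2.2⟩
      have hc1 : x0 ≤ (stair k x0 y0 b q).1 ∧ (stair k x0 y0 b q).1 ≤ m := by
        simp only [stair]
        by_cases h : q = 1
        · rw [if_pos h]; constructor <;> omega
        · rw [if_neg h]
          have := hbb (q - 1) (by omega) (by omega)
          constructor <;> omega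
      have hc2 : y0 ≤ (stair k x0 y0 b q).2 ∧ (stair k x0 y0 b q).2 ≤ n := by
        simp only [stair]
        by_cases h : q = k
        · rw [if_pos h]; constructor <;> omega
        · rw [if_neg h]
          have := hbb q (by omega) (by omega)
          constructor <;> omega
      exact hup _ _ hz0L hc1.1 hc2.1 hc1.2 hc2.2
    have hcne : stair k x0 y0 b q ≠ (x0, y0) := by
      intro h
      rw [h] at hcF
      exact hcF hz0F
    set c := stair k x0 y0 b q with hc
    -- the reduced situation
    have hmin' : ∀ z ∈ L, z.1 ≤ x0 → z.2 ≤ y0 → z = (x0, y0) := by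
      intro z hz h1 h2
      have := hmin z hz h1 h2
      exact Prod.ext this.1 this.2
    have hMax : MaxF k (L.erase (x0, y0)) (insert c (F.erase (x0, y0))) := by
      refine ⟨?_, ?_, ?_⟩
      · intro z hz
        rcases Finset.mem_insert.mp hz with h | h
        · rw [h]
          exact Finset.mem_erase.mpr ⟨hcne, hcL⟩
        · rw [Finset.mem_erase] at h ⊢
          exact ⟨h.1, hF.sub h.2⟩
      · intro a ha haE hκ
        rw [Finset.mem_erase] at hκ
        refine exchange hC hmin hB hq hqk ha ?_ hκ.2 ?_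
        · intro j h1 h2
          rcases Finset.mem_insert.mp (haE j h1 h2) with h | h
          · exact Or.inr h
          · exact Or.inl (Finset.mem_erase.mp h).2
        · rintro ⟨h1, h2⟩
          exact hκ.1 (Prod.ext h1 h2)
      · intro v hv hvE hfree
        rw [Finset.mem_erase] at hv
        have hvc : v ≠ c := fun h => hvE (by rw [h]; exact Finset.mem_insert_self _ _)
        have hvF : v ∉ F := fun h => hvE
          (Finset.mem_insert_of_mem (Finset.mem_erase.mpr ⟨hv.1, h⟩))
        have honly : ∀ e, Ch k e → (∀ j, 1 ≤ j → j ≤ k → e j ∈ F ∨ e j = v) →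
            ((e 1).1, (e k).2) ∈ L → (e 1).1 = x0 ∧ (e k).2 = y0 := by
          intro e he heV heL
          by_contra hcon
          refine hfree e he ?_ ?_
          · intro j h1 h2
            rcases heV j h1 h2 with h | h
            · refine Finset.mem_insert_of_mem (Finset.mem_insert_of_mem
                (Finset.mem_erase.mpr ⟨?_, h⟩))
              intro h'
              have h3 := he.mono (i := 1) (j := j) le_rfl h1 h2
              have h4 := he.mono (i := j) (j := k) h1 h2 le_rfl
              rw [h'] at h3 h4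
              simp only at h3 h4
              exact hcon (hmin _ heL (by simp only; omega) (by simp only; omega))
            · rw [h]; exact Finset.mem_insert_self _ _
          · refine Finset.mem_erase.mpr ⟨?_, heL⟩
            intro h
            exact hcon ⟨congrArg Prod.fst h, congrArg Prod.snd h⟩
        obtain ⟨a, ⟨ha1, ha2, ha3⟩, ha4⟩ := exists_min_of (fun a => - tot k a)
          (fun a => Ch k a ∧ (∀ j, 1 ≤ j → j ≤ k → a j ∈ F ∨ a j = v) ∧
            ((a 1).1, (a k).2) ∈ L) (- ∑ j ∈ Finset.Icc 1 k, (m + n))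
          (by
            rintro a ⟨h1, h2, h3⟩
            refine neg_le_neg (Finset.sum_le_sum ?_)
            intro j hj
            rw [Finset.mem_Icc] at hj
            rcases h2 j hj.1 hj.2 with h | h
            · have := hbox _ (hF.sub h)
              omega
            · have := hbox _ hv.2
              rw [h]
              omega)
          (by
            obtain ⟨g, i, hg, hi, hik, hgi, hgF, hκ⟩ := hF.blocker hv.2 hvF
            refine ⟨g, hg, ?_, hκ⟩
            intro j h1 h2
            by_cases h : j = i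
            · right; rw [h]; exact hgi
            · left; exact hgF j h1 h2 h)
        obtain ⟨p, hp1, hpk, hap, hamem⟩ := split_chain (F := (· ∈ F)) ha1 ha2
          (fun hall => hF.free a ha1 hall ha3)
        have hcor' := honly a ha1 ha2 ha3
        have hT : Top k x0 y0 (· ∈ F) (· ∈ L) v p a :=
          { ch := ha1
            Lv := hv.2
            p1 := hp1
            pk := hpk
            hp := hap
            mem := hamem
            hx := hcor'.1
            hy := hcor'.2
            only := honly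
            max := by
              intro e he heV heL hle
              have := ha4 e ⟨he, heV, heL⟩
              exact eq_of_tot hle (by omega) }
        have hst := stair_eq hC hz0L hB hT hbl
        have hqp : q = p := by
          by_contra hne
          have := hamem q hq hqk hne
          rw [hst q hq hqk] at this
          exact hcF this
        apply hvc
        rw [hc, ← hst q hq hqk, hqp, hap]
    have hlt : L.erase (x0, y0) ⊂ L := Finset.erase_ssubset hz0L
    have hres := ih (L.erase (x0, y0)) hlt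
      (fun z hz => hbox z (Finset.mem_erase.mp hz).2)
      (by
        intro z w hz h1 h2 h3 h4
        rw [Finset.mem_erase] at hz ⊢
        refine ⟨?_, hup z w hz.2 h1 h2 h3 h4⟩
        intro h
        rw [h] at h1 h2
        exact hz.1 (hmin' z hz.2 h1 h2))
      _ hMax
    have hcn : c ∉ F.erase (x0, y0) := fun h => hcF (Finset.mem_erase.mp h).2
    rw [Finset.card_insert_of_notMem hcn, Finset.card_erase_add_one hz0F] at hres
    rw [hres]
    congr 1
    ext z
    simp only [Finset.mem_filter, Finset.mem_erase]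
    constructor
    · rintro ⟨⟨h1, h2⟩, h3⟩
      exact ⟨h2, h3⟩
    · rintro ⟨h1, h2⟩
      refine ⟨⟨?_, h1⟩, h2⟩
      rintro rfl
      simp only at h2
      omega

end Pool.Agent.V11121.Pure
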