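import Pool.Agent.V11121.Pure.Main

/-!
Saturated configurations: a cell together with a `k`-chain in its (open or closed) quadrant.
-/

namespace Pool.Agent.V11121.Pure

/-- The grid `[1,n] × [1,n]`. -/
noncomputable def Box (n : ℤ) : Finset (ℤ × ℤ) := Finset.Icc 1 n ×ˢ Finset.Icc 1 n

theorem mem_Box {n : ℤ} {z : ℤ × ℤ} : z ∈ Box n ↔ 1 ≤ z.1 ∧ z.1 ≤ n ∧ 1 ≤ z.2 ∧ z.2 ≤ n := by
  simp only [Box, Finset.mem_product, Finset.mem_Icc]
  tauto

/-- A `k`-chain of `F` whose corner is at least `z + (d, d)`. -/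
def Above (d k : ℤ) (F : Finset (ℤ × ℤ)) (z : ℤ × ℤ) : Prop :=
  ∃ a, Ch k a ∧ (∀ j, 1 ≤ j → j ≤ k → a j ∈ F) ∧ z.1 + d ≤ (a 1).1 ∧ z.2 + d ≤ (a k).2

/-- A cell of `F` together with a `k`-chain of `F` above it. -/
def Has (d k : ℤ) (F : Finset (ℤ × ℤ)) : Prop := ∃ w ∈ F, Above d k F w

/-- Saturated configurations. -/
structure SatZ (d k n : ℤ) (F : Finset (ℤ × ℤ)) : Prop where
  sub : F ⊆ Box n
  free : ¬ Has d k F
  sat : ∀ v ∈ Box n, v ∉ F → Has d k (insert v F)

open Classical in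
/-- The cells of the grid with no chain above them. -/
noncomputable def Reg (d k n : ℤ) (F : Finset (ℤ × ℤ)) : Finset (ℤ × ℤ) :=
  (Box n).filter (fun z => ¬ Above d k F z)

theorem mem_Reg {d k n : ℤ} {F : Finset (ℤ × ℤ)} {z : ℤ × ℤ} :
    z ∈ Reg d k n F ↔ z ∈ Box n ∧ ¬ Above d k F z := by
  classical
  simp only [Reg, Finset.mem_filter]

theorem Reg_up {d k n : ℤ} {F : Finset (ℤ × ℤ)} {z w : ℤ × ℤ} (hz : z ∈ Reg d k n F)
    (h1 : z.1 ≤ w.1) (h2 : z.2 ≤ w.2) (hw : w ∈ Box n) : w ∈ Reg d k n F := by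
  rw [mem_Reg] at hz ⊢
  refine ⟨hw, ?_⟩
  rintro ⟨a, h3, h4, h5, h6⟩
  exact hz.2 ⟨a, h3, h4, by omega, by omega⟩

theorem SatZ.subReg {d k n : ℤ} {F : Finset (ℤ × ℤ)} (h : SatZ d k n F) :
    F ⊆ Reg d k n F := by
  intro z hz
  rw [mem_Reg]
  exact ⟨h.sub hz, fun ha => h.free ⟨z, hz, ha⟩⟩

theorem band_Reg {d k n : ℤ} {F : Finset (ℤ × ℤ)} (hk : 1 ≤ k) (hF : F ⊆ Box n) {z : ℤ × ℤ}
    (hz : z ∈ Box n) (hb : n < z.1 + (k - 1 + d) ∨ n < z.2 + (k - 1 + d)) :
    z ∈ Reg d k n F := by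
  rw [mem_Reg]
  refine ⟨hz, ?_⟩
  rintro ⟨a, h3, h4, h5, h6⟩
  have h7 := h3.mono (i := 1) (j := k) le_rfl hk le_rfl
  have h8 := mem_Box.mp (hF (h4 1 le_rfl hk))
  have h9 := mem_Box.mp (hF (h4 k hk le_rfl))
  omega

/-- Closed quadrants. -/
theorem card_zero {k n : ℤ} (hk : 2 ≤ k) {F : Finset (ℤ × ℤ)} (h : SatZ 0 k n F) :
    F.card = ((Box n).filter (fun z => n < z.1 + (k - 1) ∨ n < z.2 + (k - 1))).card := by
  have hM : MaxF k (Reg 0 k n F) F := by
    refine ⟨h.subReg, ?_, ?_⟩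
    · intro a ha haF hκ
      exact (mem_Reg.mp hκ).2 ⟨a, ha, haF, by simp only; omega, by simp only; omega⟩
    · intro v hv hvF hfree
      obtain ⟨w, hw, a, ha, haF, h1, h2⟩ := h.sat v (mem_Reg.mp hv).1 hvF
      have haB : ∀ j, 1 ≤ j → j ≤ k → a j ∈ Box n := by
        intro j g1 g2
        rcases Finset.mem_insert.mp (haF j g1 g2) with h' | h'
        · rw [h']; exact (mem_Reg.mp hv).1
        · exact h.sub h'
      have hb1 := mem_Box.mp (haB 1 le_rfl (by omega))
      have hbk := mem_Box.mp (haB k (by omega) le_rfl)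
      rcases Finset.mem_insert.mp hw with h' | h'
      · subst h'
        refine (mem_Reg.mp hv).2 ⟨a, ha, ?_, h1, h2⟩
        intro j g1 g2
        rcases Finset.mem_insert.mp (haF j g1 g2) with h' | h'
        · exfalso
          have h3 := ha.mono (i := 1) (j := j) le_rfl g1 g2
          have h4 := ha.mono (i := j) (j := k) g1 g2 le_rfl
          rw [h'] at h3 h4
          omega
        · exact h'
      · refine hfree a ha haF ?_
        exact Reg_up (h.subReg h') (by simp only; omega) (by simp only; omega)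
          (mem_Box.mpr ⟨hb1.1, hb1.2.1, hbk.2.2.1, hbk.2.2.2⟩)
  rw [purity k n n hk (Reg 0 k n F) (fun z hz => mem_Box.mp (mem_Reg.mp hz).1)
    (fun z w hz h1 h2 h3 h4 => Reg_up hz h1 h2 (by
      have := mem_Box.mp (mem_Reg.mp hz).1
      exact mem_Box.mpr ⟨by omega, h3, by omega, h4⟩)) F hM]
  congr 1
  ext z
  simp only [Finset.mem_filter]
  constructor
  · rintro ⟨h1, h2⟩
    exact ⟨(mem_Reg.mp h1).1, h2⟩
  · rintro ⟨h1, h2⟩
    exact ⟨band_Reg (by omega) h.sub h1 (by omega), h2⟩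

/-- Open quadrants. -/
theorem card_one {k n : ℤ} (hk : 2 ≤ k) {F : Finset (ℤ × ℤ)} (h : SatZ 1 k n F) :
    F.card = ((Box n).filter (fun z => n < z.1 + k ∨ n < z.2 + k)).card := by
  classical
  set H := Reg 1 k n F with hH
  set L := H.filter (fun z => (z.1 - 1, z.2 - 1) ∈ H) with hL
  have memL : ∀ z, z ∈ L ↔ z ∈ H ∧ (z.1 - 1, z.2 - 1) ∈ H := by
    intro z; simp only [hL, Finset.mem_filter]
  have hHB : ∀ z, z ∈ H → z ∈ Box n := fun z hz => (mem_Reg.mp hz).1
  have hLup : ∀ z w : ℤ × ℤ, z ∈ L → z.1 ≤ w.1 → z.2 ≤ w.2 → w.1 ≤ n → w.2 ≤ n → w ∈ L := by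
    intro z w hz h1 h2 h3 h4
    rw [memL] at hz ⊢
    have hz1 := mem_Box.mp (hHB _ hz.1)
    have hz2 := mem_Box.mp (hHB _ hz.2)
    simp only at hz2
    constructor
    · exact Reg_up hz.1 h1 h2 (mem_Box.mpr ⟨by omega, h3, by omega, h4⟩)
    · exact Reg_up hz.2 (by simp only; omega) (by simp only; omega)
        (mem_Box.mpr ⟨by simp only; omega, by simp only; omega, by simp only; omega,
          by simp only; omega⟩)
  -- the basic dichotomy for a missing cell
  have key : ∀ v ∈ H, v ∉ F → ∃ w ∈ F, ∃ a, Ch k a ∧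
      (∀ j, 1 ≤ j → j ≤ k → a j ∈ insert v F) ∧ w.1 + 1 ≤ (a 1).1 ∧ w.2 + 1 ≤ (a k).2 ∧
      (∃ i, 1 ≤ i ∧ i ≤ k ∧ a i = v) ∧ ((a 1).1, (a k).2) ∈ L := by
    intro v hv hvF
    obtain ⟨w, hw, a, ha, haF, h1, h2⟩ := h.sat v (hHB v hv) hvF
    have haB : ∀ j, 1 ≤ j → j ≤ k → a j ∈ Box n := by
      intro j g1 g2
      rcases Finset.mem_insert.mp (haF j g1 g2) with h' | h'
      · rw [h']; exact hHB v hv
      · exact h.sub h'
    have hb1 := mem_Box.mp (haB 1 le_rfl (by omega))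
    have hbk := mem_Box.mp (haB k (by omega) le_rfl)
    have hwF : w ∈ F := by
      rcases Finset.mem_insert.mp hw with h' | h'
      · exfalso
        subst h'
        refine (mem_Reg.mp hv).2 ⟨a, ha, ?_, h1, h2⟩
        intro j g1 g2
        rcases Finset.mem_insert.mp (haF j g1 g2) with h' | h'
        · exfalso
          have h3 := ha.mono (i := 1) (j := j) le_rfl g1 g2
          rw [h'] at h3
          omega
        · exact h'
      · exact h'
    have hwH : w ∈ H := h.subReg hwF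
    refine ⟨w, hwF, a, ha, haF, h1, h2, ?_, ?_⟩
    · by_contra hcon
      push Not at hcon
      refine (mem_Reg.mp hwH).2 ⟨a, ha, ?_, h1, h2⟩
      intro j g1 g2
      exact (Finset.mem_insert.mp (haF j g1 g2)).resolve_left (hcon j g1 g2)
    · have hwB := mem_Box.mp (hHB w hwH)
      rw [memL]
      constructor
      · exact Reg_up hwH (by simp only; omega) (by simp only; omega)
          (mem_Box.mpr ⟨hb1.1, hb1.2.1, hbk.2.2.1, hbk.2.2.2⟩)
      · exact Reg_up hwH (by simp only; omega) (by simp only; omega)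
          (mem_Box.mpr ⟨by simp only; omega, by simp only; omega, by simp only; omega,
            by simp only; omega⟩)
  have hout : ∀ z ∈ H, z ∉ L → z ∈ F := by
    intro z hz hzL
    by_contra hzF
    obtain ⟨w, hwF, a, ha, haF, h1, h2, ⟨i, hi, hik, hai⟩, hκ⟩ := key z hz hzF
    apply hzL
    have h3 := ha.mono (i := 1) (j := i) le_rfl hi hik
    have h4 := ha.mono (i := i) (j := k) hi hik le_rfl
    rw [hai] at h3 h4
    have hzB := mem_Box.mp (hHB z hz)
    exact hLup _ z hκ (by simp only; omega) (by simp only; omega) hzB.2.1 hzB.2.2.2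
  have hM : MaxF k L (F.filter (· ∈ L)) := by
    refine ⟨?_, ?_, ?_⟩
    · intro z hz
      exact (Finset.mem_filter.mp hz).2
    · intro a ha haF hκ
      refine (mem_Reg.mp ((memL _).mp hκ).2).2 ⟨a, ha, ?_, by simp only; omega,
        by simp only; omega⟩
      intro j g1 g2
      exact (Finset.mem_filter.mp (haF j g1 g2)).1
    · intro v hv hvF hfree
      have hvF' : v ∉ F := fun h' => hvF (Finset.mem_filter.mpr ⟨h', hv⟩)
      obtain ⟨w, hwF, a, ha, haF, h1, h2, hi, hκ⟩ := key v ((memL v).mp hv).1 hvF'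
      refine hfree a ha ?_ hκ
      intro j g1 g2
      rcases Finset.mem_insert.mp (haF j g1 g2) with h' | h'
      · rw [h']; exact Finset.mem_insert_self _ _
      · refine Finset.mem_insert_of_mem (Finset.mem_filter.mpr ⟨h', ?_⟩)
        have h3 := ha.mono (i := 1) (j := j) le_rfl g1 g2
        have h4 := ha.mono (i := j) (j := k) g1 g2 le_rfl
        have hzB := mem_Box.mp (h.sub h')
        exact hLup _ _ hκ (by simp only; omega) (by simp only; omega) hzB.2.1 hzB.2.2.2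
  have hP := purity k n n hk L (fun z hz => mem_Box.mp (hHB z ((memL z).mp hz).1)) hLup _ hM
  -- counting
  have c1 : F.card = (F.filter (· ∈ L)).card + (H \ L).card := by
    rw [← Finset.card_filter_add_card_filter_not (s := F) (· ∈ L)]
    congr 2
    ext z
    simp only [Finset.mem_filter, Finset.mem_sdiff]
    constructor
    · rintro ⟨h1, h2⟩
      exact ⟨h.subReg h1, h2⟩
    · rintro ⟨h1, h2⟩
      exact ⟨hout z h1 h2, h2⟩
  set U := H.filter (fun u => u.1 + 1 ≤ n ∧ u.2 + 1 ≤ n) with hU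
  have hinj : Function.Injective (fun z : ℤ × ℤ => (z.1 - 1, z.2 - 1)) := by
    rintro ⟨a1, a2⟩ ⟨b1, b2⟩ hab
    simp only [Prod.mk.injEq] at hab ⊢
    omega
  have hLU : L.image (fun z : ℤ × ℤ => (z.1 - 1, z.2 - 1)) = U := by
    ext u
    simp only [Finset.mem_image, hU, Finset.mem_filter]
    constructor
    · rintro ⟨z, hz, rfl⟩
      rw [memL] at hz
      have := mem_Box.mp (hHB z hz.1)
      refine ⟨hz.2, ?_, ?_⟩ <;> simp only <;> omega
    · rintro ⟨h1, h2, h3⟩
      have hu := mem_Box.mp (hHB u h1)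
      refine ⟨(u.1 + 1, u.2 + 1), ?_, ?_⟩
      · rw [memL]
        have e : ((u.1 + 1, u.2 + 1).1 - 1, (u.1 + 1, u.2 + 1).2 - 1) = u := by
          refine Prod.ext ?_ ?_ <;> simp
        rw [e]
        exact ⟨Reg_up h1 (by simp only; omega) (by simp only; omega)
          (mem_Box.mpr ⟨by simp only; omega, h2, by simp only; omega, h3⟩), h1⟩
      · refine Prod.ext ?_ ?_ <;> simp
  have c2 : L.card = U.card := by
    rw [← hLU, Finset.card_image_of_injective _ hinj]
  have c3 : (L.filter (fun z => n < z.1 + (k - 1) ∨ n < z.2 + (k - 1))).card =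
      (U.filter (fun z => n < z.1 + k ∨ n < z.2 + k)).card := by
    rw [← hLU, Finset.filter_image, Finset.card_image_of_injective _ hinj]
    congr 1
    refine Finset.filter_congr ?_
    intro z _
    simp only
    constructor <;> intro h' <;> omega
  have hLH : L ⊆ H := Finset.filter_subset _ _
  have hUH : U ⊆ H := Finset.filter_subset _ _
  have c4 : (H \ L).card = (H \ U).card := by
    rw [Finset.card_sdiff_of_subset hLH, Finset.card_sdiff_of_subset hUH, c2]
  rw [c1, hP, c3, c4]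
  rw [← Finset.card_union_of_disjoint]
  · congr 1
    ext z
    simp only [Finset.mem_union, Finset.mem_filter, Finset.mem_sdiff, hU]
    constructor
    · rintro (⟨⟨h1, h2⟩, h3⟩ | ⟨h1, h2⟩)
      · exact ⟨hHB z h1, h3⟩
      · refine ⟨hHB z h1, ?_⟩
        have : ¬ (z.1 + 1 ≤ n ∧ z.2 + 1 ≤ n) := fun h' => h2 ⟨h1, h'⟩
        omega
    · rintro ⟨h1, h2⟩
      have hzH : z ∈ H := band_Reg (by omega) h.sub h1 (by omega)
      by_cases hc : z.1 + 1 ≤ n ∧ z.2 + 1 ≤ n
      · exact Or.inl ⟨⟨hzH, hc⟩, h2⟩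
      · exact Or.inr ⟨hzH, fun h' => hc h'.2⟩
  · rw [Finset.disjoint_left]
    intro z h1 h2
    exact (Finset.mem_sdiff.mp h2).2 (Finset.mem_filter.mp h1).1

theorem card_band (n t : ℕ) :
    ((Box (n : ℤ)).filter (fun z => (n : ℤ) < z.1 + t ∨ (n : ℤ) < z.2 + t)).card =
      n ^ 2 - (n - t) ^ 2 := by
  classical
  have h1 := Finset.card_filter_add_card_filter_not (s := Box (n : ℤ))
    (fun z => (n : ℤ) < z.1 + t ∨ (n : ℤ) < z.2 + t)
  have h2 : (Box (n : ℤ)).filter (fun z => ¬ ((n : ℤ) < z.1 + t ∨ (n : ℤ) < z.2 + t)) =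
      Box ((n - t : ℕ) : ℤ) := by
    ext z
    simp only [Finset.mem_filter, mem_Box]
    omega
  have h3 : ∀ r : ℕ, (Box (r : ℤ)).card = r ^ 2 := by
    intro r
    simp only [Box, Finset.card_product, Int.card_Icc]
    have : ((r : ℤ) + 1 - 1).toNat = r := by omega
    rw [this, sq]
  rw [h2, h3, h3] at h1
  omega

end Pool.Agent.V11121.Pure
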