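import Pool.Agent.V11121.Pure.Left

/-!
Exchange lemma and uniqueness lemma.
-/

namespace Pool.Agent.V11121.Pure

/-- Second half of the exchange lemma. -/
theorem exchange_right {k m n x0 y0 : ℤ} {F L : ℤ × ℤ → Prop} (hC : Ctx k m n F L)
    {b : ℤ → ℤ × ℤ} (hB : Bot k x0 y0 F b) {q i : ℤ} (hq : 1 ≤ q) (hqk : q ≤ k - 1)
    {a : ℤ → ℤ × ℤ} (ha : Ch k a) (hi : 1 ≤ i) (hik : i ≤ k)
    (hy : (a i).2 = (b q).2) (hx : x0 ≤ (a i).1)
    (hx1 : (a i).1 < (b q).1) (hx2 : 1 < q → (a i).1 = (b (q - 1)).1)
    (haF : ∀ j, 1 ≤ j → j ≤ k → j ≠ i → F (a j))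
    (hκ : L ((a 1).1, (a k).2)) (hκy : y0 < (a k).2) : False := by
  have e0 : k + 1 - (k + 1 - i) = i := by ring
  have e1 : k - 1 + 1 - (k + 1 - q - 1) = q := by ring
  have e2 : k - 1 + 1 - (k + 1 - q) = q - 1 := by ring
  have e3 : k + 1 - 1 = k := by ring
  have e4 : k + 1 - k = 1 := by ring
  refine exchange_left hC.tr hB.tr (q := k + 1 - q) (i := k + 1 - i) (by omega) (by omega)
    ha.trc (by omega) (by omega) ?_ ?_ ?_ ?_ ?_ ?_ ?_
  · simp only [trc, e0, e1]; exact hy
  · simp only [trc, e0]; exact hx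
  · simp only [trc, e0, e1]; exact hx1
  · intro h
    simp only [trc, e0, e2]
    exact hx2 (by omega)
  · intro j h1 h2 h3
    simp only [trc]
    exact haF _ (by omega) (by omega) (by omega)
  · simp only [trc, e3, e4]
    exact hκ
  · simp only [trc, e3]
    exact hκy

/-- The cells on the lower staircase of `b`. -/
def stair (k x0 y0 : ℤ) (b : ℤ → ℤ × ℤ) (q : ℤ) : ℤ × ℤ :=
  (if q = 1 then x0 else (b (q - 1)).1, if q = k then y0 else (b q).2)

theorem Bot.stair_ch {k x0 y0 : ℤ} {F : ℤ × ℤ → Prop}
    {b : ℤ → ℤ × ℤ} (hB : Bot k x0 y0 F b) : Ch k (stair k x0 y0 b) := by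
  intro j h1 h2
  have e1 : j + 1 - 1 = j := by ring
  simp only [stair, e1]
  rw [if_neg (show ¬ j + 1 = 1 by omega), if_neg (show ¬ j = k by omega)]
  constructor
  · by_cases c : j = 1
    · rw [if_pos c]
      exact (hB.quad j h1 (by omega)).1
    · rw [if_neg c]
      have := hB.ch (j - 1) (by omega) (by omega)
      have e2 : j - 1 + 1 = j := by ring
      rw [e2] at this
      exact this.1
  · by_cases c : j + 1 = k
    · rw [if_pos c]
      exact (hB.quad j h1 (by omega)).2
    · rw [if_neg c]
      exact (hB.ch j h1 (by omega)).2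

theorem exchange {k m n x0 y0 : ℤ} {F L : ℤ × ℤ → Prop} (hC : Ctx k m n F L)
    (hmin : ∀ z, L z → z.1 ≤ x0 → z.2 ≤ y0 → z.1 = x0 ∧ z.2 = y0)
    {b : ℤ → ℤ × ℤ} (hB : Bot k x0 y0 F b) {q : ℤ} (hq : 1 ≤ q) (hqk : q ≤ k)
    {a : ℤ → ℤ × ℤ} (ha : Ch k a)
    (haF : ∀ j, 1 ≤ j → j ≤ k → F (a j) ∨ a j = stair k x0 y0 b q)
    (hκ : L ((a 1).1, (a k).2)) (hne : ¬ ((a 1).1 = x0 ∧ (a k).2 = y0)) : False := by
  have hk := hC.hk
  by_cases hall : ∀ j, 1 ≤ j → j ≤ k → F (a j)
  · exact hC.free a ha hall hκ
  push Not at hall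
  obtain ⟨i, hi, hik, hnF⟩ := hall
  have hai : a i = stair k x0 y0 b q := (haF i hi hik).resolve_left hnF
  have hoth : ∀ j, 1 ≤ j → j ≤ k → j ≠ i → F (a j) := by
    intro j h1 h2 h3
    rcases haF j h1 h2 with h | h
    · exact h
    · exfalso
      rw [← hai] at h
      rcases lt_or_gt_of_ne h3 with h4 | h4
      · have := (ha.mono h1 h4.le hik).1
        rw [h] at this
        omega
      · have := (ha.mono hi h4.le h2).1
        rw [h] at this
        omega
  have hm1 := ha.mono (i := 1) (j := i) le_rfl hi hik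
  have hm2 := ha.mono (i := i) (j := k) hi hik le_rfl
  have hcase : x0 < (a 1).1 ∨ y0 < (a k).2 := by
    by_contra hcon
    push Not at hcon
    exact hne (hmin _ hκ hcon.1 hcon.2)
  rcases hcase with hc | hc
  · -- large first coordinate
    have hq2 : 2 ≤ q := by
      by_contra hcon
      have hq1 : q = 1 := by omega
      have : (a i).1 = x0 := by rw [hai]; simp only [stair]; rw [if_pos hq1]
      omega
    have hx : (a i).1 = (b (q - 1)).1 := by
      rw [hai]; simp only [stair]; rw [if_neg (by omega)]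
    have hq' := hB.quad (q - 1) (by omega) (by omega)
    rcases eq_or_lt_of_le hqk with h | h
    · have hy : (a i).2 = y0 := by rw [hai]; simp only [stair]; rw [if_pos h]
      exact exchange_left hC hB hq2 hqk ha hi hik hx (by omega) (by omega)
        (fun h' => absurd h' (by omega)) hoth hκ hc
    · have hy : (a i).2 = (b q).2 := by
        rw [hai]; simp only [stair]; rw [if_neg (by omega)]
      have hq'' := hB.quad q (by omega) (by omega)
      have hch := hB.ch (q - 1) (by omega) (by omega)
      have e2 : q - 1 + 1 = q := by ring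
      rw [e2] at hch
      exact exchange_left hC hB hq2 hqk ha hi hik hx (by omega) (by omega)
        (fun _ => hy) hoth hκ hc
  · have hq2 : q ≤ k - 1 := by
      by_contra hcon
      have hq1 : q = k := by omega
      have : (a i).2 = y0 := by rw [hai]; simp only [stair]; rw [if_pos hq1]
      omega
    have hy : (a i).2 = (b q).2 := by
      rw [hai]; simp only [stair]; rw [if_neg (by omega)]
    have hq' := hB.quad q (by omega) (by omega)
    rcases eq_or_lt_of_le hq with h | h
    · have hx : (a i).1 = x0 := by rw [hai]; simp only [stair]; rw [if_pos h.symm]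
      exact exchange_right hC hB hq hq2 ha hi hik hy (by omega) (by omega)
        (fun h' => absurd h' (by omega)) hoth hκ hc
    · have hx : (a i).1 = (b (q - 1)).1 := by
        rw [hai]; simp only [stair]; rw [if_neg (by omega)]
      have hq'' := hB.quad (q - 1) (by omega) (by omega)
      have hch := hB.ch (q - 1) (by omega) (by omega)
      have e2 : q - 1 + 1 = q := by ring
      rw [e2] at hch
      exact exchange_right hC hB hq hq2 ha hi hik hy (by omega) (by omega)
        (fun _ => hx) hoth hκ hc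

/-- A pointwise maximal `k`-chain through `v` with corner `(x0, y0)`. -/
structure Top (k x0 y0 : ℤ) (F L : ℤ × ℤ → Prop) (v : ℤ × ℤ) (p : ℤ) (a : ℤ → ℤ × ℤ) :
    Prop where
  ch : Ch k a
  Lv : L v
  p1 : 1 ≤ p
  pk : p ≤ k
  hp : a p = v
  mem : ∀ j, 1 ≤ j → j ≤ k → j ≠ p → F (a j)
  hx : (a 1).1 = x0
  hy : (a k).2 = y0
  only : ∀ e, Ch k e → (∀ j, 1 ≤ j → j ≤ k → F (e j) ∨ e j = v) →
    L ((e 1).1, (e k).2) → (e 1).1 = x0 ∧ (e k).2 = y0
  max : ∀ e, Ch k e → (∀ j, 1 ≤ j → j ≤ k → F (e j) ∨ e j = v) →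
    L ((e 1).1, (e k).2) →
    (∀ j, 1 ≤ j → j ≤ k → (a j).1 ≤ (e j).1 ∧ (a j).2 ≤ (e j).2) →
    ∀ j, 1 ≤ j → j ≤ k → e j = a j

theorem Top.tr {k x0 y0 : ℤ} {F L : ℤ × ℤ → Prop} {v : ℤ × ℤ} {p : ℤ} {a : ℤ → ℤ × ℤ}
    (h : Top k x0 y0 F L v p a) :
    Top k y0 x0 (fun z => F (z.2, z.1)) (fun z => L (z.2, z.1)) (v.2, v.1) (k + 1 - p)
      (trc k a) where
  ch := h.ch.trc
  Lv := h.Lv
  p1 := by have := h.pk; omega
  pk := by have := h.p1; omega
  hp := by
    simp only [trc]
    have e1 : k + 1 - (k + 1 - p) = p := by ring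
    rw [e1, h.hp]
  mem := fun j h1 h2 h3 => h.mem (k + 1 - j) (by omega) (by omega) (by omega)
  hx := by
    simp only [trc]
    have e1 : k + 1 - 1 = k := by ring
    rw [e1, h.hy]
  hy := by
    simp only [trc]
    have e1 : k + 1 - k = 1 := by ring
    rw [e1, h.hx]
  only := by
    intro e he hF hL
    have e3 : k + 1 - 1 = k := by ring
    have e4 : k + 1 - k = 1 := by ring
    have := h.only (trc k e) he.trc
      (fun j h1 h2 => by
        rcases hF (k + 1 - j) (by omega) (by omega) with h' | h'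
        · exact Or.inl h'
        · right
          simp only [trc]
          rw [h'])
      (by simp only [trc, e3, e4]; exact hL)
    simp only [trc, e3, e4] at this
    exact ⟨this.2, this.1⟩
  max := by
    intro e he hF hL hle j h1 h2
    have e3 : k + 1 - 1 = k := by ring
    have e4 : k + 1 - k = 1 := by ring
    have := h.max (trc k e) he.trc
      (fun j h1 h2 => by
        rcases hF (k + 1 - j) (by omega) (by omega) with h' | h'
        · exact Or.inl h'
        · right
          simp only [trc]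
          rw [h'])
      (by simp only [trc, e3, e4]; exact hL)
      (fun j h1 h2 => by
        have := hle (k + 1 - j) (by omega) (by omega)
        simp only [trc] at this ⊢
        have e1 : k + 1 - (k + 1 - j) = j := by ring
        rw [e1] at this
        exact ⟨this.2, this.1⟩)
      (k + 1 - j) (by omega) (by omega)
    simp only [trc] at this ⊢
    have e1 : k + 1 - (k + 1 - j) = j := by ring
    rw [e1] at this
    rw [← this]

theorem uniq_left {k m n x0 y0 : ℤ} {F L : ℤ × ℤ → Prop} (hC : Ctx k m n F L)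
    (hL0 : L (x0, y0)) {v : ℤ × ℤ} {p : ℤ} {a : ℤ → ℤ × ℤ} (hT : Top k x0 y0 F L v p a)
    {l i : ℤ} (hl : 1 ≤ l) (hlk : l ≤ k - 1) {g : ℤ → ℤ × ℤ} (hg : Ch k g)
    (hi : 1 ≤ i) (hik : i ≤ k) (hgx : (g i).1 = (a (l + 1)).1) (hgy : (g i).2 = (a l).2)
    (hgF : ∀ j, 1 ≤ j → j ≤ k → j ≠ i → F (g j)) (hκ : L ((g 1).1, (g k).2)) :
    (((g 1).1 = x0 ∧ (g k).2 = y0) ∧ p ≤ l) ∨ (i ≤ l ∧ x0 < (g 1).1) := by
  have hk := hC.hk
  have haV : ∀ j, 1 ≤ j → j ≤ k → F (a j) ∨ a j = v := by
    intro j h1 h2
    by_cases h : j = p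
    · right; rw [h]; exact hT.hp
    · left; exact hT.mem j h1 h2 h
  have hal := hT.ch l hl (by omega)
  rcases procedure (fun j => (a j).1) (fun j => (a j).2) (fun j => (g j).1)
    (fun j => (g j).2) l (i - 1) hl (by omega)
    (by
      intro j h1 h2
      exact (hg j h1 (by omega)).2)
    (by
      intro h1
      have := hg (i - 1) (by omega) (by omega)
      have e : i - 1 + 1 = i := by ring
      rw [e] at this
      show (a l).2 < (g (i - 1)).2
      omega) with ⟨s, hs1, hs2, hs3, h1, h2⟩ | ⟨s, hs1, hs2, hs3, h1, h2⟩ | ⟨h1, h2⟩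
  · left
    have e1 : i - 1 + 1 - s = i - s := by ring
    simp only [e1] at h1 h2
    let d : ℤ → ℤ × ℤ := fun j => if i - s < j ∧ j ≤ i then a (j + l - i) else g j
    have dch : Ch k d := by
      intro j g1 g2
      simp only [d]
      by_cases c1 : i - s < j ∧ j ≤ i
      · rw [if_pos c1]
        by_cases c2 : i - s < j + 1 ∧ j + 1 ≤ i
        · rw [if_pos c2]
          have := hT.ch (j + l - i) (by omega) (by omega)
          have e : j + l - i + 1 = j + 1 + l - i := by ring
          rw [e] at this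
          exact this
        · rw [if_neg c2]
          have hji : j = i := by omega
          subst hji
          have := hg j g1 g2
          have e : j + l - j = l := by ring
          rw [e]
          constructor <;> omega
      · rw [if_neg c1]
        by_cases c2 : i - s < j + 1 ∧ j + 1 ≤ i
        · rw [if_pos c2]
          have hj : j = i - s := by omega
          have e : j + 1 + l - i = l + 1 - s := by omega
          rw [e, hj]
          exact ⟨h1, h2⟩
        · rw [if_neg c2]
          exact hg j g1 g2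
    have hd1 : (d 1).1 = (g 1).1 := by
      simp only [d]
      rw [if_neg (by omega)]
    have hd2 : (d k).2 = (g k).2 := by
      simp only [d]
      by_cases c1 : i - s < k ∧ k ≤ i
      · rw [if_pos c1]
        have hik' : i = k := by omega
        subst hik'
        have e : i + l - i = l := by ring
        rw [e]
        omega
      · rw [if_neg c1]
    have hLd : L ((d 1).1, (d k).2) := by rw [hd1, hd2]; exact hκ
    have hor := hT.only d dch
      (by
        intro j g1 g2
        simp only [d]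
        by_cases c1 : i - s < j ∧ j ≤ i
        · rw [if_pos c1]
          exact haV _ (by omega) (by omega)
        · rw [if_neg c1]
          exact Or.inl (hgF j g1 g2 (by omega))) hLd
    rw [hd1, hd2] at hor
    refine ⟨hor, ?_⟩
    by_contra hp
    refine hC.free d dch ?_ hLd
    intro j g1 g2
    simp only [d]
    by_cases c1 : i - s < j ∧ j ≤ i
    · rw [if_pos c1]
      exact hT.mem _ (by omega) (by omega) (by omega)
    · rw [if_neg c1]
      exact hgF j g1 g2 (by omega)
  · exfalso
    let e : ℤ → ℤ × ℤ := fun j => if l - s < j ∧ j ≤ l then g (j + i - 1 - l) else a j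
    have hcmp : ∀ j, l - s < j → j ≤ l →
        (a j).1 ≤ (g (j + i - 1 - l)).1 ∧ (a j).2 < (g (j + i - 1 - l)).2 := by
      intro j g1 g2
      have := h2 (l + 1 - j) (by omega) (by omega)
      have e1 : i - 1 + 1 - (l + 1 - j) = j + i - 1 - l := by ring
      have e2 : l + 1 - (l + 1 - j) = j := by ring
      simp only [e1, e2] at this
      exact this
    have ech : Ch k e := by
      intro j g1 g2
      simp only [e]
      by_cases c1 : l - s < j ∧ j ≤ l
      · rw [if_pos c1]
        by_cases c2 : l - s < j + 1 ∧ j + 1 ≤ l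
        · rw [if_pos c2]
          have := hg (j + i - 1 - l) (by omega) (by omega)
          have e' : j + i - 1 - l + 1 = j + 1 + i - 1 - l := by ring
          rw [e'] at this
          exact this
        · rw [if_neg c2]
          have hj : j = l := by omega
          have h3 := hcmp j c1.1 c1.2
          have h5 := hg (i - 1) (by omega) (by omega)
          have e' : i - 1 + 1 = i := by ring
          rw [e'] at h5
          have e2 : j + i - 1 - l = i - 1 := by omega
          rw [e2] at h3 ⊢
          rw [hj] at h3 ⊢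
          constructor <;> omega
      · rw [if_neg c1]
        by_cases c2 : l - s < j + 1 ∧ j + 1 ≤ l
        · rw [if_pos c2]
          have hj : j = l - s := by omega
          have h3 := h1 (by omega)
          have h4 := hcmp (j + 1) c2.1 c2.2
          have h5 := hT.ch j g1 g2
          have e1 : i - 1 + 1 - s = j + 1 + i - 1 - l := by omega
          have e2 : l - s = j := by omega
          simp only [e1, e2] at h3
          constructor <;> omega
        · rw [if_neg c2]
          exact hT.ch j g1 g2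
    have heV : ∀ j, 1 ≤ j → j ≤ k → F (e j) ∨ e j = v := by
      intro j g1 g2
      simp only [e]
      by_cases c1 : l - s < j ∧ j ≤ l
      · rw [if_pos c1]
        exact Or.inl (hgF _ (by omega) (by omega) (by omega))
      · rw [if_neg c1]
        exact haV j g1 g2
    have hle : ∀ j, 1 ≤ j → j ≤ k → (a j).1 ≤ (e j).1 ∧ (a j).2 ≤ (e j).2 := by
      intro j g1 g2
      simp only [e]
      by_cases c1 : l - s < j ∧ j ≤ l
      · rw [if_pos c1]
        have h3 := hcmp j c1.1 c1.2
        exact ⟨h3.1, h3.2.le⟩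
      · rw [if_neg c1]
        exact ⟨le_rfl, le_rfl⟩
    have hbox : ∀ j, 1 ≤ j → j ≤ k → (e j).1 ≤ m ∧ (e j).2 ≤ n := by
      intro j g1 g2
      rcases heV j g1 g2 with h | h
      · have := hC.Lbox _ (hC.FL _ h)
        exact ⟨this.2.1, this.2.2.2⟩
      · have := hC.Lbox _ hT.Lv
        rw [h]
        exact ⟨this.2.1, this.2.2.2⟩
    have hL : L ((e 1).1, (e k).2) := by
      refine hC.up (x0, y0) _ hL0 ?_ ?_ (hbox 1 le_rfl (by omega)).1 (hbox k (by omega) le_rfl).2
      · have := (hle 1 le_rfl (by omega)).1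
        rw [hT.hx] at this
        exact this
      · have := (hle k (by omega) le_rfl).2
        rw [hT.hy] at this
        exact this
    have hfin := hT.max e ech heV hL hle l hl (by omega)
    simp only [e] at hfin
    rw [if_pos ⟨by omega, le_rfl⟩] at hfin
    have h3 := hcmp l (by omega) le_rfl
    rw [hfin] at h3
    omega
  · right
    refine ⟨by omega, ?_⟩
    rcases eq_or_lt_of_le hi with h | h
    · have h3 := hT.ch.mono (i := 1) (j := l + 1) le_rfl (by omega) (by omega)
      rw [hT.hx, ← hgx, ← h] at h3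
      omega
    · have h3 := (h2 (i - 1) (by omega) le_rfl).1
      have e1 : i - 1 + 1 - (i - 1) = 1 := by ring
      simp only [e1] at h3
      have h4 := hT.ch.mono (i := 1) (j := l + 1 - (i - 1)) le_rfl (by omega) (by omega)
      rw [hT.hx] at h4
      omega

theorem uniq_right {k m n x0 y0 : ℤ} {F L : ℤ × ℤ → Prop} (hC : Ctx k m n F L)
    (hL0 : L (x0, y0)) {v : ℤ × ℤ} {p : ℤ} {a : ℤ → ℤ × ℤ} (hT : Top k x0 y0 F L v p a)
    {l i : ℤ} (hl : 1 ≤ l) (hlk : l ≤ k - 1) {g : ℤ → ℤ × ℤ} (hg : Ch k g)
    (hi : 1 ≤ i) (hik : i ≤ k) (hgx : (g i).1 = (a (l + 1)).1) (hgy : (g i).2 = (a l).2)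
    (hgF : ∀ j, 1 ≤ j → j ≤ k → j ≠ i → F (g j)) (hκ : L ((g 1).1, (g k).2)) :
    (((g 1).1 = x0 ∧ (g k).2 = y0) ∧ l + 1 ≤ p) ∨ (l + 1 ≤ i ∧ y0 < (g k).2) := by
  have e0 : k + 1 - (k + 1 - i) = i := by ring
  have e1 : k + 1 - (k - l + 1) = l := by ring
  have e2 : k + 1 - (k - l) = l + 1 := by ring
  have e3 : k + 1 - 1 = k := by ring
  have e4 : k + 1 - k = 1 := by ring
  have := uniq_left hC.tr (by exact hL0) hT.tr (l := k - l) (i := k + 1 - i) (by omega)
    (by omega) hg.trc (by omega) (by omega)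
    (by simp only [trc, e0, e1]; exact hgy)
    (by simp only [trc, e0, e2]; exact hgx)
    (by
      intro j h1 h2 h3
      simp only [trc]
      exact hgF _ (by omega) (by omega) (by omega))
    (by simp only [trc, e3, e4]; exact hκ)
  simp only [trc, e3, e4] at this
  rcases this with ⟨⟨h1, h2⟩, h3⟩ | ⟨h1, h2⟩
  · exact Or.inl ⟨⟨h2, h1⟩, by omega⟩
  · exact Or.inr ⟨by omega, h2⟩

end Pool.Agent.V11121.Pure
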